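import Mathlib

/-!
# Counting inside one class of ellipses
-/

namespace Pool.Agent.Helper40.BS

open Finset

lemma card_near (m : ℕ) (z : ℤ) (r : ℕ) :
    (univ.filter fun s : Fin m => |((s : ℕ) : ℤ) - z| < (r : ℤ)).card ≤ 2 * r := by
  classical
  have h1 : (univ.filter fun s : Fin m => |((s : ℕ) : ℤ) - z| < (r : ℤ)).card ≤
      (Finset.Ioo (z - r) (z + r)).card := by
    apply Finset.card_le_card_of_injOn (fun s : Fin m => ((s : ℕ) : ℤ))
    · intro s hs
      have hs' := (Finset.mem_filter.mp (Finset.mem_coe.mp hs)).2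
      rw [abs_lt] at hs'
      simp only [Finset.coe_Ioo, Set.mem_Ioo]
      constructor <;> linarith [hs'.1, hs'.2]
    · intro s _ t _ h
      simp only at h
      exact Fin.ext (by exact_mod_cast h)
  refine h1.trans ?_
  rw [Int.card_Ioo]
  omega

theorem class_ineq (K m L w w' : ℕ) (hK : 1 ≤ K)
    (hwm : 256 * K ^ 2 * w ≤ m) (hwm' : 256 * K ^ 2 * w' ≤ m) (hL : 2 * m / K + 1 ≤ L)
    (hw : 1 ≤ w) (hw' : 1 ≤ w')
    (adj hub : (Fin L × Fin L) → (Fin m × Fin m) → Prop)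
    (lk : (Fin m × Fin m) → (Fin m × Fin m) → Prop)
    [∀ a b, Decidable (hub a b)] [∀ a b, Decidable (lk a b)]
    (hin : ∀ a b, |((b.1 : ℕ) : ℤ) - K * ((a.1 : ℕ) : ℤ)| ≤ 32 * K ^ 2 * w →
      |((b.2 : ℕ) : ℤ) - K * ((a.2 : ℕ) : ℤ)| ≤ 32 * K ^ 2 * w' → adj a b)
    (hout : ∀ a b, adj a b → |((b.1 : ℕ) : ℤ) - K * ((a.1 : ℕ) : ℤ)| < 128 * K ^ 2 * w ∧
      |((b.2 : ℕ) : ℤ) - K * ((a.2 : ℕ) : ℤ)| < 128 * K ^ 2 * w')
    (hub_adj : ∀ a b, hub a b → adj a b)
    (hsp : ∀ a b, adj a b → hub a b ∨ ∃ c, hub a c ∧ lk c b) :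
    m ^ 2 ≤ (univ.filter fun p : (Fin L × Fin L) × (Fin m × Fin m) => hub p.1 p.2).card +
      (univ.filter fun p : (Fin m × Fin m) × (Fin m × Fin m) => lk p.1 p.2 ∧
        ((w : ℤ) ≤ |((p.2.1 : ℕ) : ℤ) - ((p.1.1 : ℕ) : ℤ)| ∧
          |((p.2.1 : ℕ) : ℤ) - ((p.1.1 : ℕ) : ℤ)| < 256 * K ^ 2 * w) ∧
        ((w' : ℤ) ≤ |((p.2.2 : ℕ) : ℤ) - ((p.1.2 : ℕ) : ℤ)| ∧
          |((p.2.2 : ℕ) : ℤ) - ((p.1.2 : ℕ) : ℤ)| < 256 * K ^ 2 * w')).card := by
  classical
  set E1 := (univ.filter fun p : (Fin L × Fin L) × (Fin m × Fin m) => hub p.1 p.2) with hE1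
  set E2 := (univ.filter fun p : (Fin m × Fin m) × (Fin m × Fin m) => lk p.1 p.2 ∧
        ((w : ℤ) ≤ |((p.2.1 : ℕ) : ℤ) - ((p.1.1 : ℕ) : ℤ)| ∧
          |((p.2.1 : ℕ) : ℤ) - ((p.1.1 : ℕ) : ℤ)| < 256 * K ^ 2 * w) ∧
        ((w' : ℤ) ≤ |((p.2.2 : ℕ) : ℤ) - ((p.1.2 : ℕ) : ℤ)| ∧
          |((p.2.2 : ℕ) : ℤ) - ((p.1.2 : ℕ) : ℤ)| < 256 * K ^ 2 * w')) with hE2
  set U := E2.image Prod.snd with hU
  have hUc : U.card ≤ E2.card := Finset.card_image_le
  set N := (univ : Finset (Fin m × Fin m)) \ U with hN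
  have hNU : m ^ 2 = U.card + N.card := by
    have h1 := Finset.card_sdiff_add_card_eq_card (Finset.subset_univ U)
    have h2 : (univ : Finset (Fin m × Fin m)).card = m ^ 2 := by
      simp [Fintype.card_prod, sq]
    rw [← h2, ← h1, hN]; ring
  -- the set of incidences
  set T := (N ×ˢ (univ : Finset (Fin L × Fin L))).filter (fun q =>
      |((q.1.1 : ℕ) : ℤ) - K * ((q.2.1 : ℕ) : ℤ)| ≤ 32 * K ^ 2 * w ∧
      |((q.1.2 : ℕ) : ℤ) - K * ((q.2.2 : ℕ) : ℤ)| ≤ 32 * K ^ 2 * w') with hT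
  -- lower bound
  have hKpos : 0 < K := hK
  have key1 : ∀ (x : ℕ) (y : ℕ) (z : ℕ), x < m → 256 * K ^ 2 * y ≤ m → z < 32 * K * y →
      x / K + 1 + z < L ∧ |(x : ℤ) - K * ((x / K + 1 + z : ℕ) : ℤ)| ≤ 32 * K ^ 2 * y := by
    intro x y z hx hy hz
    have hdm := Nat.div_add_mod x K
    have hmod := Nat.mod_lt x hKpos
    constructor
    · apply lt_of_lt_of_le _ hL
      rw [Nat.lt_succ_iff, Nat.le_div_iff_mul_le hKpos]
      have h3 : (x / K + 1 + z) * K ≤ x + (z + 1) * K := by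
        nlinarith [Nat.div_mul_le_self x K]
      have h4 : (z + 1) * K ≤ 32 * K * y * K := Nat.mul_le_mul_right K hz
      nlinarith
    · have h5 : ((x / K + 1 + z : ℕ) : ℤ) = (x / K : ℕ) + 1 + z := by push_cast; ring
      rw [h5]
      have hdm' : (K : ℤ) * ((x / K : ℕ) : ℤ) + ((x % K : ℕ) : ℤ) = x := by exact_mod_cast hdm
      have hmod' : ((x % K : ℕ) : ℤ) < K := by exact_mod_cast hmod
      have hmod0 : (0 : ℤ) ≤ ((x % K : ℕ) : ℤ) := by positivity
      have hz' : (z : ℤ) + 1 ≤ 32 * K * y := by exact_mod_cast hz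
      have hK' : (0 : ℤ) < K := by exact_mod_cast hKpos
      rw [abs_le]
      constructor
      · nlinarith
      · nlinarith [mul_nonneg (mul_nonneg (by norm_num : (0:ℤ) ≤ 32) (sq_nonneg (K:ℤ))) (Int.natCast_nonneg y), mul_nonneg hK'.le (Int.natCast_nonneg z)]
  have hlow : N.card * ((32 * K * w) * (32 * K * w')) ≤ T.card := by
    have hTsum : T.card = ∑ b ∈ N, (univ.filter fun a : Fin L × Fin L =>
        |((b.1 : ℕ) : ℤ) - K * ((a.1 : ℕ) : ℤ)| ≤ 32 * K ^ 2 * w ∧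
        |((b.2 : ℕ) : ℤ) - K * ((a.2 : ℕ) : ℤ)| ≤ 32 * K ^ 2 * w').card := by
      rw [hT, Finset.card_filter, Finset.sum_product]
      apply Finset.sum_congr rfl
      intro b _
      rw [Finset.card_filter]
    rw [hTsum, ← smul_eq_mul, ← Finset.sum_const]
    apply Finset.sum_le_sum
    intro b _
    have h6 : (32 * K * w) * (32 * K * w') =
        (univ : Finset (Fin (32 * K * w) × Fin (32 * K * w'))).card := by
      simp [Fintype.card_prod]
    rw [h6]
    apply Finset.card_le_card_of_injOn (fun z =>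
      ((⟨(b.1 : ℕ) / K + 1 + z.1, (key1 b.1 w z.1 b.1.2 hwm z.1.2).1⟩ : Fin L),
        (⟨(b.2 : ℕ) / K + 1 + z.2, (key1 b.2 w' z.2 b.2.2 hwm' z.2.2).1⟩ : Fin L)))
    · intro z _
      simp only [Finset.coe_filter, Finset.mem_univ, true_and, Set.mem_ofPred_eq]
      exact ⟨(key1 b.1 w z.1 b.1.2 hwm z.1.2).2, (key1 b.2 w' z.2 b.2.2 hwm' z.2.2).2⟩
    · intro z _ z' _ h
      simp only [Prod.mk.injEq, Fin.mk.injEq] at h
      ext
      · omega
      · omega
  -- upper bound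
  have hup : T.card ≤ E1.card * (1024 * K ^ 2 * w * w') := by
    set F : (Fin L × Fin L) × (Fin m × Fin m) → Finset (Fin m × Fin m) := fun p =>
      (univ.filter fun s : Fin m => |((s : ℕ) : ℤ) - ((p.2.1 : ℕ) : ℤ)| < (w : ℤ)) ×ˢ
        (univ.filter fun t : Fin m => |((t : ℕ) : ℤ) - K * ((p.1.2 : ℕ) : ℤ)| < ((128 * K ^ 2 * w' : ℕ) : ℤ)) ∪
      (univ.filter fun s : Fin m => |((s : ℕ) : ℤ) - K * ((p.1.1 : ℕ) : ℤ)| < ((128 * K ^ 2 * w : ℕ) : ℤ)) ×ˢ
        (univ.filter fun t : Fin m => |((t : ℕ) : ℤ) - ((p.2.2 : ℕ) : ℤ)| < (w' : ℤ)) with hF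
    have hFc : ∀ p, (F p).card ≤ 1024 * K ^ 2 * w * w' := by
      intro p
      rw [hF]
      refine (Finset.card_union_le _ _).trans ?_
      rw [Finset.card_product, Finset.card_product]
      have a1 := card_near m ((p.2.1 : ℕ) : ℤ) w
      have a2 := card_near m (K * ((p.1.2 : ℕ) : ℤ)) (128 * K ^ 2 * w')
      have a3 := card_near m (K * ((p.1.1 : ℕ) : ℤ)) (128 * K ^ 2 * w)
      have a4 := card_near m ((p.2.2 : ℕ) : ℤ) w'
      calc _ ≤ (2 * w) * (2 * (128 * K ^ 2 * w')) + (2 * (128 * K ^ 2 * w)) * (2 * w') :=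
            Nat.add_le_add (Nat.mul_le_mul a1 a2) (Nat.mul_le_mul a3 a4)
        _ = 1024 * K ^ 2 * w * w' := by ring
    have hTsub : T ⊆ E1.biUnion (fun p => (F p).image (fun b => (b, p.1))) := by
      intro q hq
      rw [hT, Finset.mem_filter, Finset.mem_product] at hq
      obtain ⟨⟨hqN, _⟩, hq1, hq2⟩ := hq
      have hadj := hin q.2 q.1 hq1 hq2
      have ho := hout _ _ hadj
      have ho1 : |((q.1.1 : ℕ) : ℤ) - K * ((q.2.1 : ℕ) : ℤ)| < ((128 * K ^ 2 * w : ℕ) : ℤ) := by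
        push_cast; exact ho.1
      have ho2 : |((q.1.2 : ℕ) : ℤ) - K * ((q.2.2 : ℕ) : ℤ)| < ((128 * K ^ 2 * w' : ℕ) : ℤ) := by
        push_cast; exact ho.2
      rw [Finset.mem_biUnion]
      rcases hsp _ _ hadj with h | ⟨c, hc, hcb⟩
      · refine ⟨(q.2, q.1), ?_, ?_⟩
        · rw [hE1, Finset.mem_filter]; exact ⟨Finset.mem_univ _, h⟩
        · rw [Finset.mem_image]
          refine ⟨q.1, ?_, rfl⟩
          rw [hF, Finset.mem_union, Finset.mem_product]
          left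
          refine ⟨?_, ?_⟩
          · rw [Finset.mem_filter]
            refine ⟨Finset.mem_univ _, ?_⟩
            simp only [sub_self, abs_zero]
            exact_mod_cast hw
          · rw [Finset.mem_filter]
            exact ⟨Finset.mem_univ _, ho2⟩
      · refine ⟨(q.2, c), ?_, ?_⟩
        · rw [hE1, Finset.mem_filter]; exact ⟨Finset.mem_univ _, hc⟩
        · rw [Finset.mem_image]
          refine ⟨q.1, ?_, rfl⟩
          rw [hF, Finset.mem_union, Finset.mem_product, Finset.mem_product]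
          have hc' := hout _ _ (hub_adj _ _ hc)
          have hnU : q.1 ∉ U := by
            rw [hN, Finset.mem_sdiff] at hqN; exact hqN.2
          by_cases h1 : |((q.1.1 : ℕ) : ℤ) - ((c.1 : ℕ) : ℤ)| < (w : ℤ)
          · left
            refine ⟨?_, ?_⟩
            · rw [Finset.mem_filter]; exact ⟨Finset.mem_univ _, h1⟩
            · rw [Finset.mem_filter]; exact ⟨Finset.mem_univ _, ho2⟩
          · by_cases h2 : |((q.1.2 : ℕ) : ℤ) - ((c.2 : ℕ) : ℤ)| < (w' : ℤ)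
            · right
              refine ⟨?_, ?_⟩
              · rw [Finset.mem_filter]; exact ⟨Finset.mem_univ _, ho1⟩
              · rw [Finset.mem_filter]; exact ⟨Finset.mem_univ _, h2⟩
            · exfalso
              apply hnU
              rw [hU, Finset.mem_image]
              refine ⟨(c, q.1), ?_, rfl⟩
              rw [hE2, Finset.mem_filter]
              push Not at h1 h2
              have ho1' := ho.1
              have ho2' := ho.2
              have hc1 := hc'.1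
              have hc2 := hc'.2
              rw [abs_lt] at ho1' ho2' hc1 hc2
              refine ⟨Finset.mem_univ _, hcb, ⟨h1, ?_⟩, ⟨h2, ?_⟩⟩
              · rw [abs_lt]; constructor <;> linarith [ho1'.1, ho1'.2, hc1.1, hc1.2]
              · rw [abs_lt]; constructor <;> linarith [ho2'.1, ho2'.2, hc2.1, hc2.2]
    calc T.card ≤ (E1.biUnion (fun p => (F p).image (fun b => (b, p.1)))).card :=
          Finset.card_le_card hTsub
      _ ≤ ∑ p ∈ E1, ((F p).image (fun b => (b, p.1))).card := Finset.card_biUnion_le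
      _ ≤ ∑ p ∈ E1, (1024 * K ^ 2 * w * w') :=
          Finset.sum_le_sum fun p _ => Finset.card_image_le.trans (hFc p)
      _ = E1.card * (1024 * K ^ 2 * w * w') := by rw [Finset.sum_const, smul_eq_mul]
  have hfin : N.card ≤ E1.card := by
    have h7 : N.card * (1024 * K ^ 2 * w * w') ≤ E1.card * (1024 * K ^ 2 * w * w') := by
      calc N.card * (1024 * K ^ 2 * w * w') = N.card * ((32 * K * w) * (32 * K * w')) := by ring
        _ ≤ T.card := hlow
        _ ≤ _ := hup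
    exact Nat.le_of_mul_le_mul_right h7 (by positivity)
  omega

end Pool.Agent.Helper40.BS
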