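import Pool.Agent.Helper40.BS.Defs
import Pool.Agent.Helper40.BS.Cls

/-!
# The combinatorial core: a 2-spanner needs edges of every displacement class
-/

namespace Pool.Agent.Helper40.BS

open Finset

/-- an edge is replaced by an edge or a path with two edges -/
theorem spanner_adj {V : Type*} {G H : SimpleGraph V} (h : IsTwoSpanner G H) {x y : V}
    (hxy : G.Adj x y) : H.Adj x y ∨ ∃ z, H.Adj x z ∧ H.Adj z y := by
  have h1 : H.edist x y ≤ 2 := by
    have h2 := h.2 x y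
    have h3 : G.edist x y ≤ 1 := by
      have := SimpleGraph.edist_le (SimpleGraph.Walk.cons hxy SimpleGraph.Walk.nil)
      simpa using this
    calc H.edist x y ≤ 2 * G.edist x y := h2
      _ ≤ 2 * 1 := by gcongr
      _ = 2 := by norm_num
  have hne : H.edist x y ≠ ⊤ := ne_top_of_le_ne_top (by simp) h1
  obtain ⟨p, hp⟩ := SimpleGraph.exists_walk_of_edist_ne_top hne
  have hl : p.length ≤ 2 := by
    rw [← hp] at h1
    exact_mod_cast h1
  cases p with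
  | nil => exact absurd rfl hxy.ne
  | cons hxz q =>
    cases q with
    | nil => left; exact hxz
    | cons hzw r =>
      cases r with
      | nil => right; exact ⟨_, hxz, hzw⟩
      | cons _ s =>
        simp only [SimpleGraph.Walk.length_cons] at hl
        omega

theorem core {V : Type*} [Fintype V] (G H : SimpleGraph V) (K m L : ℕ) (hK : 1 ≤ K)
    (hm : (256 * K ^ 2) ^ K ≤ m) (hL : 2 * m / K + 1 = L)
    (P : Fin m × Fin m → V) (Q : (Fin K × Fin K) × (Fin L × Fin L) → V)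
    (hP : Function.Injective P) (hQ : Function.Injective Q)
    (hPQ : ∀ b a, P b ≠ Q a)
    (hind : ∀ a v, G.Adj (Q a) v → ∃ b, v = P b)
    (hin : ∀ (i : Fin K × Fin K) (a : Fin L × Fin L) (b : Fin m × Fin m),
      |((b.1 : ℕ) : ℤ) - K * ((a.1 : ℕ) : ℤ)| ≤ 32 * K ^ 2 * (((256 * K ^ 2) ^ (i.1 : ℕ) : ℕ) : ℤ) →
      |((b.2 : ℕ) : ℤ) - K * ((a.2 : ℕ) : ℤ)| ≤ 32 * K ^ 2 * (((256 * K ^ 2) ^ (i.2 : ℕ) : ℕ) : ℤ) →
      G.Adj (Q (i, a)) (P b))
    (hout : ∀ (i : Fin K × Fin K) (a : Fin L × Fin L) (b : Fin m × Fin m),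
      G.Adj (Q (i, a)) (P b) →
      |((b.1 : ℕ) : ℤ) - K * ((a.1 : ℕ) : ℤ)| < 128 * K ^ 2 * (((256 * K ^ 2) ^ (i.1 : ℕ) : ℕ) : ℤ) ∧
      |((b.2 : ℕ) : ℤ) - K * ((a.2 : ℕ) : ℤ)| < 128 * K ^ 2 * (((256 * K ^ 2) ^ (i.2 : ℕ) : ℕ) : ℤ))
    (hH : IsTwoSpanner G H) : K ^ 2 * m ^ 2 ≤ 2 * H.edgeSet.ncard := by
  classical
  set β := 256 * K ^ 2 with hβ
  have hβpos : 2 ≤ β := by
    rw [hβ]; nlinarith [Nat.one_le_pow 2 K hK]
  -- per class
  have hcl : ∀ i : Fin K × Fin K, m ^ 2 ≤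
      (univ.filter fun p : (Fin L × Fin L) × (Fin m × Fin m) => H.Adj (Q (i, p.1)) (P p.2)).card +
      (univ.filter fun p : (Fin m × Fin m) × (Fin m × Fin m) => H.Adj (P p.1) (P p.2) ∧
        (((β ^ (i.1 : ℕ) : ℕ) : ℤ) ≤ |((p.2.1 : ℕ) : ℤ) - ((p.1.1 : ℕ) : ℤ)| ∧
          |((p.2.1 : ℕ) : ℤ) - ((p.1.1 : ℕ) : ℤ)| < 256 * K ^ 2 * ((β ^ (i.1 : ℕ) : ℕ) : ℤ)) ∧
        (((β ^ (i.2 : ℕ) : ℕ) : ℤ) ≤ |((p.2.2 : ℕ) : ℤ) - ((p.1.2 : ℕ) : ℤ)| ∧
          |((p.2.2 : ℕ) : ℤ) - ((p.1.2 : ℕ) : ℤ)| < 256 * K ^ 2 * ((β ^ (i.2 : ℕ) : ℕ) : ℤ))).card := by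
    intro i
    have hle : ∀ j : Fin K, 256 * K ^ 2 * β ^ (j : ℕ) ≤ m := by
      intro j
      calc 256 * K ^ 2 * β ^ (j : ℕ) = β ^ ((j : ℕ) + 1) := by rw [pow_succ, hβ]; ring
        _ ≤ β ^ K := Nat.pow_le_pow_right (by omega) (by have := j.2; omega)
        _ ≤ m := hm
    apply class_ineq K m L (β ^ (i.1 : ℕ)) (β ^ (i.2 : ℕ)) hK (hle _) (hle _) hL.le
      (Nat.one_le_pow _ _ (by omega)) (Nat.one_le_pow _ _ (by omega))
      (fun a b => G.Adj (Q (i, a)) (P b)) (fun a b => H.Adj (Q (i, a)) (P b))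
      (fun c b => H.Adj (P c) (P b))
    · intro a b h1 h2
      exact hin i a b h1 h2
    · intro a b h
      exact hout i a b h
    · intro a b h
      exact hH.1 h
    · intro a b h
      rcases spanner_adj hH h with h1 | ⟨z, h1, h2⟩
      · left; exact h1
      · right
        obtain ⟨c, rfl⟩ := hind _ _ (hH.1 h1)
        exact ⟨c, h1, h2⟩
  -- the darts of H
  set D := (univ.filter fun p : V × V => H.Adj p.1 p.2) with hD
  have hDc : D.card = 2 * H.edgeSet.ncard := by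
    rw [← SimpleGraph.coe_edgeFinset, Set.ncard_coe_finset]
    rw [← SimpleGraph.sum_degrees_eq_twice_card_edges]
    rw [hD, Finset.card_filter, ← Finset.univ_product_univ, Finset.sum_product]
    apply Finset.sum_congr rfl
    intro v _
    rw [← SimpleGraph.card_neighborFinset_eq_degree, ← Finset.card_filter]
    congr 1
    ext w
    simp
  rw [← hDc]
  set E1 : Fin K × Fin K → Finset ((Fin L × Fin L) × (Fin m × Fin m)) := fun i =>
    univ.filter fun p : (Fin L × Fin L) × (Fin m × Fin m) => H.Adj (Q (i, p.1)) (P p.2) with hE1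
  set E2 : Fin K × Fin K → Finset ((Fin m × Fin m) × (Fin m × Fin m)) := fun i =>
    univ.filter fun p : (Fin m × Fin m) × (Fin m × Fin m) => H.Adj (P p.1) (P p.2) ∧
        (((β ^ (i.1 : ℕ) : ℕ) : ℤ) ≤ |((p.2.1 : ℕ) : ℤ) - ((p.1.1 : ℕ) : ℤ)| ∧
          |((p.2.1 : ℕ) : ℤ) - ((p.1.1 : ℕ) : ℤ)| < 256 * K ^ 2 * ((β ^ (i.1 : ℕ) : ℕ) : ℤ)) ∧
        (((β ^ (i.2 : ℕ) : ℕ) : ℤ) ≤ |((p.2.2 : ℕ) : ℤ) - ((p.1.2 : ℕ) : ℤ)| ∧
          |((p.2.2 : ℕ) : ℤ) - ((p.1.2 : ℕ) : ℤ)| < 256 * K ^ 2 * ((β ^ (i.2 : ℕ) : ℕ) : ℤ)) with hE2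
  set D1 : Fin K × Fin K → Finset (V × V) := fun i =>
    (E1 i).image (fun p => (Q (i, p.1), P p.2)) with hD1
  set D2 : Fin K × Fin K → Finset (V × V) := fun i =>
    (E2 i).image (fun p => (P p.1, P p.2)) with hD2
  have hD1c : ∀ i, (D1 i).card = (E1 i).card := by
    intro i
    apply Finset.card_image_of_injective
    intro p q h
    simp only [Prod.mk.injEq] at h
    have h1 := hQ h.1
    have h2 := hP h.2
    simp only [Prod.mk.injEq, true_and] at h1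
    exact Prod.ext h1 h2
  have hD2c : ∀ i, (D2 i).card = (E2 i).card := by
    intro i
    apply Finset.card_image_of_injective
    intro p q h
    simp only [Prod.mk.injEq] at h
    exact Prod.ext (hP h.1) (hP h.2)
  have hdisj : ∀ i, Disjoint (D1 i) (D2 i) := by
    intro i
    rw [Finset.disjoint_left]
    intro x hx1 hx2
    rw [hD1, Finset.mem_image] at hx1
    rw [hD2, Finset.mem_image] at hx2
    obtain ⟨p, _, rfl⟩ := hx1
    obtain ⟨q, _, hq⟩ := hx2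
    simp only [Prod.mk.injEq] at hq
    exact hPQ _ _ hq.1
  have hwin : ∀ (i j : ℕ) (x : ℤ), ((β ^ i : ℕ) : ℤ) ≤ x → x < 256 * K ^ 2 * ((β ^ i : ℕ) : ℤ) →
      ((β ^ j : ℕ) : ℤ) ≤ x → x < 256 * K ^ 2 * ((β ^ j : ℕ) : ℤ) → i = j := by
    intro i j x h1 h2 h3 h4
    have e : ∀ k : ℕ, (256 * (K : ℤ) ^ 2 * ((β ^ k : ℕ) : ℤ)) = ((β ^ (k + 1) : ℕ) : ℤ) := by
      intro k
      rw [pow_succ, hβ]; push_cast; ring
    rw [e] at h2 h4
    have h5 : β ^ i < β ^ (j + 1) := by exact_mod_cast lt_of_le_of_lt h1 h4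
    have h6 : β ^ j < β ^ (i + 1) := by exact_mod_cast lt_of_le_of_lt h3 h2
    have h7 := (Nat.pow_lt_pow_iff_right (by omega)).mp h5
    have h8 := (Nat.pow_lt_pow_iff_right (by omega)).mp h6
    omega
  have hpair : ∀ i ∈ (univ : Finset (Fin K × Fin K)), ∀ j ∈ (univ : Finset (Fin K × Fin K)),
      i ≠ j → Disjoint (D1 i ∪ D2 i) (D1 j ∪ D2 j) := by
    intro i _ j _ hij
    rw [Finset.disjoint_left]
    intro x hxi hxj
    apply hij
    rw [Finset.mem_union] at hxi hxj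
    rcases hxi with h | h <;> rcases hxj with h' | h'
    · rw [hD1, Finset.mem_image] at h h'
      obtain ⟨p, _, rfl⟩ := h
      obtain ⟨q, _, hq⟩ := h'
      simp only [Prod.mk.injEq] at hq
      have := hQ hq.1
      simp only [Prod.mk.injEq] at this
      exact this.1.symm
    · exfalso
      rw [hD1, Finset.mem_image] at h
      rw [hD2, Finset.mem_image] at h'
      obtain ⟨p, _, rfl⟩ := h
      obtain ⟨q, _, hq⟩ := h'
      simp only [Prod.mk.injEq] at hq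
      exact hPQ _ _ hq.1
    · exfalso
      rw [hD2, Finset.mem_image] at h
      rw [hD1, Finset.mem_image] at h'
      obtain ⟨p, _, rfl⟩ := h
      obtain ⟨q, _, hq⟩ := h'
      simp only [Prod.mk.injEq] at hq
      exact hPQ _ _ hq.1.symm
    · rw [hD2, Finset.mem_image] at h h'
      obtain ⟨p, hp, rfl⟩ := h
      obtain ⟨q, hq', hq⟩ := h'
      simp only [Prod.mk.injEq] at hq
      have e1 := hP hq.1
      have e2 := hP hq.2
      have e3 : q = p := Prod.ext e1 e2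
      subst e3
      rw [hE2, Finset.mem_filter] at hp hq'
      obtain ⟨_, _, ⟨a1, a2⟩, ⟨a3, a4⟩⟩ := hp
      obtain ⟨_, _, ⟨b1, b2⟩, ⟨b3, b4⟩⟩ := hq'
      exact Prod.ext (Fin.ext (hwin _ _ _ a1 a2 b1 b2)) (Fin.ext (hwin _ _ _ a3 a4 b3 b4))
  have hsub : (univ : Finset (Fin K × Fin K)).biUnion (fun i => D1 i ∪ D2 i) ⊆ D := by
    intro x hx
    rw [Finset.mem_biUnion] at hx
    obtain ⟨i, _, hx⟩ := hx
    rw [Finset.mem_union] at hx
    rw [hD, Finset.mem_filter]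
    refine ⟨Finset.mem_univ _, ?_⟩
    rcases hx with h | h
    · rw [hD1, Finset.mem_image] at h
      obtain ⟨p, hp, rfl⟩ := h
      rw [hE1, Finset.mem_filter] at hp
      exact hp.2
    · rw [hD2, Finset.mem_image] at h
      obtain ⟨p, hp, rfl⟩ := h
      rw [hE2, Finset.mem_filter] at hp
      exact hp.2.1
  calc K ^ 2 * m ^ 2 = ∑ i : Fin K × Fin K, m ^ 2 := by
        rw [Finset.sum_const, smul_eq_mul]; simp [Fintype.card_prod, sq]
    _ ≤ ∑ i : Fin K × Fin K, (D1 i ∪ D2 i).card := by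
        apply Finset.sum_le_sum
        intro i _
        rw [Finset.card_union_of_disjoint (hdisj i), hD1c, hD2c]
        exact hcl i
    _ = ((univ : Finset (Fin K × Fin K)).biUnion (fun i => D1 i ∪ D2 i)).card := by
        rw [Finset.card_biUnion hpair]
    _ ≤ D.card := Finset.card_le_card hsub

end Pool.Agent.Helper40.BS
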