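import Pool.Agent.Helper40.BS.Fam
import Pool.Agent.Helper40.BS.Core

/-!
# Assembly: families of exactly `n` balls
-/

namespace Pool.Agent.Helper40.BS

open Finset

theorem assemble (n K m : ℕ) (hK : 1 ≤ K) (hm : (256 * K ^ 2) ^ K ≤ m) (hn : 10 * m ^ 2 ≤ n) :
    ∃ (ctr : Fin n → E3) (rad : Fin n → ℝ), (∀ i, 0 < rad i) ∧
      (Function.Injective fun i => (ctr i, rad i)) ∧
      ∀ H : SimpleGraph (Fin n), IsTwoSpanner (interGraph ctr rad) H →
        K ^ 2 * m ^ 2 ≤ 2 * H.edgeSet.ncard := by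
  classical
  obtain ⟨L, hL⟩ : ∃ L, 2 * m / K + 1 = L := ⟨_, rfl⟩
  have hKm : K ≤ m := by
    refine le_trans ?_ hm
    calc K ≤ 256 * K ^ 2 := by nlinarith
      _ = (256 * K ^ 2) ^ 1 := by ring
      _ ≤ (256 * K ^ 2) ^ K := Nat.pow_le_pow_right (by positivity) hK
  have hKL : K * L ≤ 3 * m := by
    have h1 : K * (2 * m / K) ≤ 2 * m := Nat.mul_div_le _ _
    rw [← hL, Nat.mul_add, Nat.mul_one]
    omega
  have hcard : m * m + (K * K) * (L * L) ≤ n := by
    have h2 : (K * L) * (K * L) ≤ (3 * m) * (3 * m) := Nat.mul_le_mul hKL hKL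
    nlinarith
  obtain ⟨e, he⟩ := Nat.exists_eq_add_of_le hcard
  obtain ⟨ctr, rad, h1, h2, h3, h4, h5⟩ := family K m L e hK hm hL
  have hc : Fintype.card (VV K m L e) = n := by
    unfold VV
    simp only [Fintype.card_sum, Fintype.card_prod, Fintype.card_fin]
    rw [he]; ring
  obtain ⟨f⟩ : Nonempty (VV K m L e ≃ Fin n) := ⟨Fintype.equivFinOfCardEq hc⟩
  refine ⟨fun i => ctr (f.symm i), fun i => rad (f.symm i), fun i => h1 _, ?_, ?_⟩
  · intro i j hij
    exact f.symm.injective (h2 hij)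
  · intro H hH
    have hadj : ∀ x y, (interGraph (fun i => ctr (f.symm i)) (fun i => rad (f.symm i))).Adj (f x) (f y) ↔
        (interGraph ctr rad).Adj x y := by
      intro x y
      unfold interGraph
      simp only [Equiv.symm_apply_apply, ne_eq, EmbeddingLike.apply_eq_iff_eq]
    apply core (interGraph (fun i => ctr (f.symm i)) (fun i => rad (f.symm i))) H K m L hK hm hL
      (fun b => f (Sum.inl b)) (fun a => f (Sum.inr (Sum.inl a)))
    · intro b b' h
      exact Sum.inl.inj (f.injective h)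
    · intro a a' h
      exact Sum.inl.inj (Sum.inr.inj (f.injective h))
    · intro b a h
      have := f.injective h
      simp at this
    · intro a v hv
      obtain ⟨w, rfl⟩ := f.surjective v
      rw [hadj] at hv
      obtain ⟨b, hb⟩ := h3 a w hv
      exact ⟨b, by rw [hb]⟩
    · intro i a b ha hb
      exact (hadj _ _).mpr (h4 i a b ha hb)
    · intro i a b h
      exact h5 i a b ((hadj _ _).mp h)
    · exact hH

end Pool.Agent.Helper40.BS
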