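import Mathlib

/-!
# Intersection graphs of balls in 3-space and their 2-spanners
-/

namespace Pool.Agent.Helper40.BS

/-- Euclidean 3-space. -/
abbrev E3 := EuclideanSpace ℝ (Fin 3)

/-- The intersection graph of the closed balls with centre `ctr i` and radius `rad i`: two
distinct indices are adjacent iff the two balls have a common point. -/
def interGraph {ι : Type*} (ctr : ι → E3) (rad : ι → ℝ) : SimpleGraph ι where
  Adj i j := i ≠ j ∧
    (Metric.closedBall (ctr i) (rad i) ∩ Metric.closedBall (ctr j) (rad j)).Nonempty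
  symm := ⟨fun i j h => ⟨h.1.symm, by rw [Set.inter_comm]; exact h.2⟩⟩
  loopless := ⟨fun i h => h.1 rfl⟩

/-- `H` is a 2-spanner of `G`: a spanning subgraph with `d_H(x,y) ≤ 2 d_G(x,y)` for all `x, y`
(the distance is `⊤` for two vertices in different components). -/
def IsTwoSpanner {V : Type*} (G H : SimpleGraph V) : Prop :=
  H ≤ G ∧ ∀ x y, H.edist x y ≤ 2 * G.edist x y

end Pool.Agent.Helper40.BS
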