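import Pool.Agent.Helper40.BS.Geo

/-!
# The family of balls
-/

namespace Pool.Agent.Helper40.BS

open Finset

/-- Vertices: grid points, ellipses, padding. -/
abbrev VV (K m L e : ℕ) : Type := (Fin m × Fin m) ⊕ (((Fin K × Fin K) × (Fin L × Fin L)) ⊕ Fin e)

theorem family (K m L e : ℕ) (hK : 1 ≤ K) (hm : (256 * K ^ 2) ^ K ≤ m)
    (hL : 2 * m / K + 1 = L) :
    ∃ (ctr : VV K m L e → E3) (rad : VV K m L e → ℝ), (∀ v, 0 < rad v) ∧
      (Function.Injective fun v => (ctr v, rad v)) ∧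
      (∀ a v, (interGraph ctr rad).Adj (Sum.inr (Sum.inl a)) v → ∃ b, v = Sum.inl b) ∧
      (∀ (i : Fin K × Fin K) (a : Fin L × Fin L) (b : Fin m × Fin m),
        |((b.1 : ℕ) : ℤ) - K * ((a.1 : ℕ) : ℤ)| ≤ 32 * K ^ 2 * (((256 * K ^ 2) ^ (i.1 : ℕ) : ℕ) : ℤ) →
        |((b.2 : ℕ) : ℤ) - K * ((a.2 : ℕ) : ℤ)| ≤ 32 * K ^ 2 * (((256 * K ^ 2) ^ (i.2 : ℕ) : ℕ) : ℤ) →
        (interGraph ctr rad).Adj (Sum.inr (Sum.inl (i, a))) (Sum.inl b)) ∧
      (∀ (i : Fin K × Fin K) (a : Fin L × Fin L) (b : Fin m × Fin m),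
        (interGraph ctr rad).Adj (Sum.inr (Sum.inl (i, a))) (Sum.inl b) →
        |((b.1 : ℕ) : ℤ) - K * ((a.1 : ℕ) : ℤ)| < 128 * K ^ 2 * (((256 * K ^ 2) ^ (i.1 : ℕ) : ℕ) : ℤ) ∧
        |((b.2 : ℕ) : ℤ) - K * ((a.2 : ℕ) : ℤ)| < 128 * K ^ 2 * (((256 * K ^ 2) ^ (i.2 : ℕ) : ℕ) : ℤ)) := by
  classical
  set β := 256 * K ^ 2 with hβ
  have hβ1 : 1 ≤ β := by rw [hβ]; nlinarith [Nat.one_le_pow 2 K hK]
  -- the enumeration of the small balls
  set A := (Fin K × Fin K) × (Fin L × Fin L) with hA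
  set eq := Fintype.equivFin A with heq
  set NA := Fintype.card A with hNA
  set σ : ℝ := 8 * (NA + 1) with hσ
  have hσpos : 0 < σ := by positivity
  have hmle : ∀ j : Fin K, 256 * K ^ 2 * β ^ (j : ℕ) ≤ m := by
    intro j
    calc 256 * K ^ 2 * β ^ (j : ℕ) = β ^ ((j : ℕ) + 1) := by rw [pow_succ, hβ]; ring
      _ ≤ β ^ K := Nat.pow_le_pow_right (by omega) (by have := j.2; omega)
      _ ≤ m := hm
  have hKr : (1 : ℝ) ≤ K := by exact_mod_cast hK
  have hm1 : 1 ≤ m := by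
    refine le_trans ?_ hm
    exact Nat.one_le_pow _ _ (by omega)
  have hmr : (1 : ℝ) ≤ m := by exact_mod_cast hm1
  set Iv : Fin K → ℝ := fun j => 32 * (K : ℝ) ^ 2 * ((β ^ (j : ℕ) : ℕ) : ℝ) with hIv
  have hIge : ∀ j, (32 : ℝ) ≤ Iv j := by
    intro j
    have h1 : (1 : ℝ) ≤ ((β ^ (j : ℕ) : ℕ) : ℝ) := by
      exact_mod_cast Nat.one_le_pow _ _ (by omega)
    have h2 : (1 : ℝ) ≤ (K : ℝ) ^ 2 := one_le_pow₀ hKr
    rw [hIv]
    simp only
    nlinarith
  have hIle : ∀ j, Iv j ≤ m := by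
    intro j
    have h1 := hmle j
    have h2 : (256 : ℝ) * K ^ 2 * ((β ^ (j : ℕ) : ℕ) : ℝ) ≤ m := by exact_mod_cast h1
    have h3 : (0 : ℝ) ≤ K ^ 2 * ((β ^ (j : ℕ) : ℕ) : ℝ) := by positivity
    rw [hIv]
    simp only
    nlinarith
  set D : ℝ := 4 * σ ^ 2 * m ^ 4 + 4 with hD
  have hDpos : 4 ≤ D := by rw [hD]; have : 0 ≤ 4 * σ ^ 2 * (m : ℝ) ^ 4 := by positivity
                           linarith
  set μ : A → ℝ := fun a => 2 * σ ^ 2 * (Iv a.1.1) ^ 2 * (m : ℝ) ^ 2 / (Iv a.1.2) ^ 2 with hμ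
  set R : A → ℝ := fun a => 4 * (Iv a.1.1) ^ 2 * σ ^ 2 with hR
  have hμpos : ∀ a, 0 < μ a := by
    intro a
    have h1 := hIge a.1.1
    have h2 := hIge a.1.2
    rw [hμ]
    have h3 : 0 < Iv a.1.1 := by linarith
    have h4 : 0 < Iv a.1.2 := by linarith
    simp only
    positivity
  have hμlt : ∀ a, μ a < D := by
    intro a
    have h1 := hIle a.1.1
    have h1' := hIge a.1.1
    have h2 := hIge a.1.2
    have h5 : μ a ≤ 2 * σ ^ 2 * (m : ℝ) ^ 2 * m ^ 2 := by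
      rw [hμ]
      simp only
      rw [div_le_iff₀ (by positivity)]
      have h6 : (Iv a.1.1) ^ 2 ≤ (m : ℝ) ^ 2 := pow_le_pow_left₀ (by linarith) h1 2
      have h7 : (1 : ℝ) ≤ (Iv a.1.2) ^ 2 := one_le_pow₀ (by linarith)
      calc 2 * σ ^ 2 * (Iv a.1.1) ^ 2 * (m : ℝ) ^ 2 ≤ 2 * σ ^ 2 * (m : ℝ) ^ 2 * (m : ℝ) ^ 2 := by
            gcongr
        _ = 2 * σ ^ 2 * (m : ℝ) ^ 2 * (m : ℝ) ^ 2 * 1 := by ring
        _ ≤ 2 * σ ^ 2 * (m : ℝ) ^ 2 * (m : ℝ) ^ 2 * (Iv a.1.2) ^ 2 := by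
            apply mul_le_mul_of_nonneg_left h7; positivity
    have h8 : 0 ≤ σ ^ 2 * (m : ℝ) ^ 4 := by positivity
    rw [hD]
    nlinarith
  have hRpos : ∀ a, 0 ≤ R a := by intro a; rw [hR]; positivity
  have hRle : ∀ a, R a ≤ D := by
    intro a
    have h1 := hIle a.1.1
    have h1' := hIge a.1.1
    have h6 : (Iv a.1.1) ^ 2 ≤ (m : ℝ) ^ 2 := pow_le_pow_left₀ (by linarith) h1 2
    have h7 : (m : ℝ) ^ 2 ≤ (m : ℝ) ^ 4 := pow_le_pow_right₀ hmr (by norm_num)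
    rw [hR, hD]
    simp only
    have h8 : (Iv a.1.1) ^ 2 * σ ^ 2 ≤ (m : ℝ) ^ 4 * σ ^ 2 :=
      mul_le_mul_of_nonneg_right (h6.trans h7) (sq_nonneg σ)
    linarith
  set cc : A → ℝ := fun a => μ a / D with hcc
  have hcc0 : ∀ a, 0 < cc a := fun a => div_pos (hμpos a) (by linarith)
  have hcc1 : ∀ a, cc a < 1 := fun a => by
    rw [hcc]; simp only; rw [div_lt_one (by linarith)]; exact hμlt a
  have hccD : ∀ a, cc a * D = μ a := fun a => by
    rw [hcc]; simp only; field_simp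
  -- parameters
  set X : A → ℝ := fun a => σ * (K * ((a.2.1 : ℕ) : ℝ)) + 4 * ((eq a : ℕ) : ℝ) with hX
  set ta : A → ℝ := fun a => (K * ((a.2.2 : ℕ) : ℝ)) / (2 * m) with hta
  set tb : Fin m × Fin m → ℝ := fun b => ((b.2 : ℕ) : ℝ) / (2 * m) with htb
  set ra : A → ℝ := fun a => Real.sqrt ((D - cc a) ^ 2 + R a) - (D - 1) with hra
  have hra0 : ∀ a, 0 < ra a := by
    intro a
    have h1 : D - cc a ≤ Real.sqrt ((D - cc a) ^ 2 + R a) := by
      apply Real.le_sqrt_of_sq_le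
      linarith [hRpos a]
    have h2 := hcc1 a
    rw [hra]
    simp only
    linarith
  have hra2 : ∀ a, ra a ≤ 3 / 2 := by
    intro a
    have h1 : Real.sqrt ((D - cc a) ^ 2 + R a) ≤ D + 1 / 2 := by
      rw [Real.sqrt_le_left (by linarith)]
      nlinarith [hRle a, hcc0 a, hcc1 a]
    rw [hra]
    simp only
    linarith
  set ctr : VV K m L e → E3 := fun v => match v with
    | Sum.inl b => pt (σ * ((b.1 : ℕ) : ℝ)) (D * cP (tb b)) (D * cQ (tb b))
    | Sum.inr (Sum.inl a) => pt (X a) (cc a * cP (ta a)) (cc a * cQ (ta a))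
    | Sum.inr (Sum.inr j) => pt (-(10 + ((j : ℕ) : ℝ))) 0 0 with hctr
  set rad : VV K m L e → ℝ := fun v => match v with
    | Sum.inl _ => D - 1
    | Sum.inr (Sum.inl a) => ra a
    | Sum.inr (Sum.inr _) => 1 with hrad
  have hradpos : ∀ v, 0 < rad v := by
    intro v
    match v with
    | Sum.inl b => show 0 < D - 1; linarith
    | Sum.inr (Sum.inl a) => exact hra0 a
    | Sum.inr (Sum.inr j) => show (0 : ℝ) < 1; norm_num
  have hX0 : ∀ a, 0 ≤ X a := by intro a; rw [hX]; positivity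
  have heqlt : ∀ a, ((eq a : ℕ) : ℝ) ≤ NA := by
    intro a
    exact_mod_cast (eq a).2.le
  have hXdiff : ∀ a a' : A, a ≠ a' → 4 ≤ |X a - X a'| := by
    intro a a' hne
    have hidx : (eq a : ℕ) ≠ (eq a' : ℕ) := by
      intro h
      exact hne (eq.injective (Fin.ext h))
    by_cases h1 : (a.2.1 : ℕ) = (a'.2.1 : ℕ)
    · have h2 : X a - X a' = 4 * (((eq a : ℕ) : ℝ) - ((eq a' : ℕ) : ℝ)) := by
        rw [hX]; simp only [h1]; ring
      rw [h2, abs_mul]
      have h3 : (1 : ℝ) ≤ |((eq a : ℕ) : ℝ) - ((eq a' : ℕ) : ℝ)| := by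
        have h4 : (1 : ℤ) ≤ |((eq a : ℕ) : ℤ) - ((eq a' : ℕ) : ℤ)| := by
          apply Int.one_le_abs
          intro h
          apply hidx
          omega
        exact_mod_cast h4
      rw [abs_of_pos (by norm_num : (0:ℝ) < 4)]
      linarith
    · have h3 : (1 : ℝ) ≤ |((a.2.1 : ℕ) : ℝ) - ((a'.2.1 : ℕ) : ℝ)| := by
        have h4 : (1 : ℤ) ≤ |((a.2.1 : ℕ) : ℤ) - ((a'.2.1 : ℕ) : ℤ)| := by
          apply Int.one_le_abs
          intro h
          apply h1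
          omega
        exact_mod_cast h4
      have h5 : X a - X a' = σ * K * (((a.2.1 : ℕ) : ℝ) - ((a'.2.1 : ℕ) : ℝ)) +
          4 * (((eq a : ℕ) : ℝ) - ((eq a' : ℕ) : ℝ)) := by
        rw [hX]; ring
      have h6 : |σ * K * (((a.2.1 : ℕ) : ℝ) - ((a'.2.1 : ℕ) : ℝ))| ≥ σ := by
        rw [abs_mul, abs_of_pos (by positivity)]
        nlinarith [mul_le_mul hKr h3 (by norm_num) (by linarith : (0:ℝ) ≤ K)]
      have h7 : |4 * (((eq a : ℕ) : ℝ) - ((eq a' : ℕ) : ℝ))| ≤ 4 * NA := by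
        rw [abs_mul, abs_of_pos (by norm_num : (0:ℝ) < 4)]
        have h8 : |((eq a : ℕ) : ℝ) - ((eq a' : ℕ) : ℝ)| ≤ NA := by
          rw [abs_le]
          have b1 := heqlt a
          have b2 := heqlt a'
          have b3 : (0 : ℝ) ≤ ((eq a : ℕ) : ℝ) := by positivity
          have b4 : (0 : ℝ) ≤ ((eq a' : ℕ) : ℝ) := by positivity
          constructor <;> linarith
        linarith
      rw [h5]
      have h9 := abs_sub_abs_le_abs_sub (σ * K * (((a.2.1 : ℕ) : ℝ) - ((a'.2.1 : ℕ) : ℝ)))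
        (-(4 * (((eq a : ℕ) : ℝ) - ((eq a' : ℕ) : ℝ))))
      rw [abs_neg, sub_neg_eq_add] at h9
      have h10 : (0 : ℝ) ≤ NA := by positivity
      rw [hσ] at h6
      linarith
  have hadj : ∀ (i : Fin K × Fin K) (a : Fin L × Fin L) (b : Fin m × Fin m),
      (interGraph ctr rad).Adj (Sum.inr (Sum.inl (i, a))) (Sum.inl b) ↔
      (σ * ((((b.1 : ℕ) : ℝ) - K * ((a.1 : ℕ) : ℝ)) - 4 * ((eq (i, a) : ℕ) : ℝ) / σ)) ^ 2 +
        (2 * σ ^ 2 * (Iv i.1) ^ 2 * (m : ℝ) ^ 2 / (Iv i.2) ^ 2) * chord (tb b) (ta (i, a)) ≤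
        4 * (Iv i.1) ^ 2 * σ ^ 2 := by
    intro i a b
    rw [adj_iff _ _ _ _ (hradpos _).le (hradpos _).le]
    have h1 := tube_adj (X (i, a)) (σ * ((b.1 : ℕ) : ℝ)) (cc (i, a)) D (tb b) (ta (i, a))
      (R (i, a)) (hRpos _)
    rw [hccD] at h1
    have h2 : (σ * ((b.1 : ℕ) : ℝ) - X (i, a)) ^ 2 =
        (σ * ((((b.1 : ℕ) : ℝ) - K * ((a.1 : ℕ) : ℝ)) - 4 * ((eq (i, a) : ℕ) : ℝ) / σ)) ^ 2 := by
      congr 1
      rw [hX]
      simp only
      field_simp
      ring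
    rw [h2] at h1
    constructor
    · intro h
      exact h1.mp h.2
    · intro h
      exact ⟨by simp, h1.mpr h⟩
  have hδ : ∀ a : A, 0 ≤ 4 * ((eq a : ℕ) : ℝ) / σ ∧ 4 * ((eq a : ℕ) : ℝ) / σ ≤ 1 / 2 := by
    intro a
    constructor
    · positivity
    · rw [div_le_iff₀ hσpos, hσ]
      have := heqlt a
      linarith
  have htb01 : ∀ b, 0 ≤ tb b ∧ tb b ≤ 1 := by
    intro b
    rw [htb]
    simp only
    constructor
    · positivity
    · rw [div_le_one (by positivity)]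
      have : ((b.2 : ℕ) : ℝ) ≤ m := by exact_mod_cast b.2.2.le
      linarith
  have hta01 : ∀ a : A, 0 ≤ ta a ∧ ta a ≤ 1 := by
    intro a
    rw [hta]
    simp only
    constructor
    · positivity
    · rw [div_le_one (by positivity)]
      have h1 : (a.2.2 : ℕ) ≤ 2 * m / K := by
        have := a.2.2.2
        omega
      have h2 : K * (a.2.2 : ℕ) ≤ 2 * m := by
        calc K * (a.2.2 : ℕ) ≤ K * (2 * m / K) := Nat.mul_le_mul_left K h1
          _ ≤ 2 * m := Nat.mul_div_le _ _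
      exact_mod_cast h2
  have hdt : ∀ (a : A) (b : Fin m × Fin m), tb b - ta a =
      (((b.2 : ℕ) : ℝ) - K * ((a.2.2 : ℕ) : ℝ)) / (2 * m) := by
    intro a b
    rw [htb, hta]
    simp only
    ring
  refine ⟨ctr, rad, hradpos, ?_, ?_, ?_, ?_⟩
  · -- injectivity
    intro v v' h
    have hc : ctr v = ctr v' := congrArg Prod.fst h
    have hr : rad v = rad v' := congrArg Prod.snd h
    match v, v' with
    | Sum.inl b, Sum.inl b' =>
      have h1 := pt_injective hc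
      have h2 : ((b.1 : ℕ) : ℝ) = ((b'.1 : ℕ) : ℝ) := mul_left_cancel₀ hσpos.ne' h1.1
      have h3 : (b.1 : ℕ) = (b'.1 : ℕ) := by exact_mod_cast h2
      have hD0 : D ≠ 0 := by linarith
      have h4 := mul_left_cancel₀ hD0 h1.2.1
      have h5 := mul_left_cancel₀ hD0 h1.2.2
      have h6 : chord (tb b) (tb b') = 0 := by
        unfold chord
        rw [h4, h5]; ring
      have h7 := (chord_bounds (tb b) (tb b') (htb01 b).1 (htb01 b).2 (htb01 b').1 (htb01 b').2).1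
      rw [h6] at h7
      have h8 : tb b - tb b' = 0 := by
        have := le_antisymm h7 (sq_nonneg _)
        exact pow_eq_zero_iff (two_ne_zero) |>.mp this
      have h9 : ((b.2 : ℕ) : ℝ) = ((b'.2 : ℕ) : ℝ) := by
        rw [htb] at h8
        simp only at h8
        have h10 : ((b.2 : ℕ) : ℝ) / (2 * m) = ((b'.2 : ℕ) : ℝ) / (2 * m) := by linarith
        field_simp at h10
        exact h10
      have h11 : (b.2 : ℕ) = (b'.2 : ℕ) := by exact_mod_cast h9
      congr 1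
      exact Prod.ext (Fin.ext h3) (Fin.ext h11)
    | Sum.inl b, Sum.inr (Sum.inl a) =>
      exfalso
      have h1 : D - 1 = ra a := hr
      have := hra2 a
      linarith
    | Sum.inr (Sum.inl a), Sum.inl b =>
      exfalso
      have h1 : ra a = D - 1 := hr
      have := hra2 a
      linarith
    | Sum.inl b, Sum.inr (Sum.inr j) =>
      exfalso
      have h1 : D - 1 = 1 := hr
      linarith
    | Sum.inr (Sum.inr j), Sum.inl b =>
      exfalso
      have h1 : 1 = D - 1 := hr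
      linarith
    | Sum.inr (Sum.inl a), Sum.inr (Sum.inl a') =>
      by_cases hne : a = a'
      · rw [hne]
      · exfalso
        have h1 := (pt_injective hc).1
        have h2 := hXdiff a a' hne
        rw [h1, sub_self, abs_zero] at h2
        linarith
    | Sum.inr (Sum.inl a), Sum.inr (Sum.inr j) =>
      exfalso
      have h1 := (pt_injective hc).1
      have h2 := hX0 a
      have h3 : (0 : ℝ) ≤ ((j : ℕ) : ℝ) := by positivity
      linarith
    | Sum.inr (Sum.inr j), Sum.inr (Sum.inl a) =>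
      exfalso
      have h1 := (pt_injective hc).1
      have h2 := hX0 a
      have h3 : (0 : ℝ) ≤ ((j : ℕ) : ℝ) := by positivity
      linarith
    | Sum.inr (Sum.inr j), Sum.inr (Sum.inr j') =>
      have h1 := (pt_injective hc).1
      have h2 : ((j : ℕ) : ℝ) = ((j' : ℕ) : ℝ) := by linarith
      have h3 : (j : ℕ) = (j' : ℕ) := by exact_mod_cast h2
      congr 2
      exact Fin.ext h3
  · -- the small balls are pairwise disjoint and far from the padding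
    intro a v h
    rw [adj_iff _ _ _ _ (hradpos _).le (hradpos _).le] at h
    match v with
    | Sum.inl b => exact ⟨b, rfl⟩
    | Sum.inr (Sum.inl a') =>
      exfalso
      have hne : a ≠ a' := by
        intro he
        exact h.1 (by rw [he])
      have h1 := hXdiff a a' hne
      have h2 : dist (ctr (Sum.inr (Sum.inl a))) (ctr (Sum.inr (Sum.inl a'))) ≤ 3 := by
        refine h.2.trans ?_
        have b1 := hra2 a
        have b2 := hra2 a'
        show ra a + ra a' ≤ 3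
        linarith
      have h3 : (X a - X a') ^ 2 ≤ 3 ^ 2 := by
        have h4 := dist_pt_sq (X a) (cc a * cP (ta a)) (cc a * cQ (ta a))
          (X a') (cc a' * cP (ta a')) (cc a' * cQ (ta a'))
        have h5 : dist (ctr (Sum.inr (Sum.inl a))) (ctr (Sum.inr (Sum.inl a'))) ^ 2 ≤ 3 ^ 2 :=
          pow_le_pow_left₀ dist_nonneg h2 2
        have h6 : dist (ctr (Sum.inr (Sum.inl a))) (ctr (Sum.inr (Sum.inl a'))) ^ 2 =
          (X a - X a') ^ 2 + (cc a * cP (ta a) - cc a' * cP (ta a')) ^ 2 +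
            (cc a * cQ (ta a) - cc a' * cQ (ta a')) ^ 2 := h4
        nlinarith [sq_nonneg (cc a * cP (ta a) - cc a' * cP (ta a')),
          sq_nonneg (cc a * cQ (ta a) - cc a' * cQ (ta a'))]
      have h7 := abs_le_of_sq_le_sq h3 (by norm_num)
      linarith
    | Sum.inr (Sum.inr j) =>
      exfalso
      have h2 : dist (ctr (Sum.inr (Sum.inl a))) (ctr (Sum.inr (Sum.inr j))) ≤ 3 := by
        refine h.2.trans ?_
        have b1 := hra2 a
        show ra a + 1 ≤ 3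
        linarith
      have h4 := dist_pt_sq (X a) (cc a * cP (ta a)) (cc a * cQ (ta a))
          (-(10 + ((j : ℕ) : ℝ))) 0 0
      have h5 : dist (ctr (Sum.inr (Sum.inl a))) (ctr (Sum.inr (Sum.inr j))) ^ 2 ≤ 3 ^ 2 :=
          pow_le_pow_left₀ dist_nonneg h2 2
      have h6 : dist (ctr (Sum.inr (Sum.inl a))) (ctr (Sum.inr (Sum.inr j))) ^ 2 =
          (X a - (-(10 + ((j : ℕ) : ℝ)))) ^ 2 + (cc a * cP (ta a) - 0) ^ 2 +
            (cc a * cQ (ta a) - 0) ^ 2 := h4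
      have h7 : (X a - (-(10 + ((j : ℕ) : ℝ)))) ^ 2 ≤ 3 ^ 2 := by
        nlinarith [sq_nonneg (cc a * cP (ta a) - 0), sq_nonneg (cc a * cQ (ta a) - 0)]
      have h8 := abs_le_of_sq_le_sq h7 (by norm_num)
      have h9 := hX0 a
      have h10 : (0 : ℝ) ≤ ((j : ℕ) : ℝ) := by positivity
      rw [abs_le] at h8
      linarith [h8.2]
  · -- inner box
    intro i a b h1 h2
    rw [hadj]
    apply sand_in _ (((b.2 : ℕ) : ℝ) - K * ((a.2 : ℕ) : ℝ)) (Iv i.1) (Iv i.2) _ σ m _ _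
      (hδ (i, a)).1 (hδ (i, a)).2 (by linarith [hIge i.1]) (by linarith [hIge i.2]) (by linarith)
      _ _ (htb01 b).1 (htb01 b).2 (hta01 (i, a)).1 (hta01 (i, a)).2 (hdt (i, a) b)
    · rw [hIv]
      simp only
      exact_mod_cast h1
    · rw [hIv]
      simp only
      exact_mod_cast h2
  · -- outer box
    intro i a b h
    rw [hadj] at h
    have h1 := sand_out _ (((b.2 : ℕ) : ℝ) - K * ((a.2 : ℕ) : ℝ)) (Iv i.1) (Iv i.2) _ σ m _ _
      (hδ (i, a)).1 (hδ (i, a)).2 (by linarith [hIge i.1]) (by linarith [hIge i.2]) (by linarith)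
      hσpos (htb01 b).1 (htb01 b).2 (hta01 (i, a)).1 (hta01 (i, a)).2 (hdt (i, a) b) h
    constructor
    · have h2 : |((b.1 : ℕ) : ℝ) - K * ((a.1 : ℕ) : ℝ)| <
          128 * (K : ℝ) ^ 2 * (((β ^ (i.1 : ℕ) : ℕ) : ℝ)) := by
        refine lt_of_lt_of_eq h1.1 ?_
        rw [hIv]; ring
      exact_mod_cast h2
    · have h2 : |((b.2 : ℕ) : ℝ) - K * ((a.2 : ℕ) : ℝ)| <
          128 * (K : ℝ) ^ 2 * (((β ^ (i.2 : ℕ) : ℕ) : ℝ)) := by
        refine lt_of_lt_of_eq h1.2 ?_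
        rw [hIv]; ring
      exact_mod_cast h2

end Pool.Agent.Helper40.BS
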