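import Pool.Agent.Helper40.BS.Defs

/-!
# The tube: balls inside and outside a cylinder
-/

namespace Pool.Agent.Helper40.BS

open Finset

lemma adj_iff {ι : Type*} (ctr : ι → E3) (rad : ι → ℝ) (i j : ι) (hi : 0 ≤ rad i)
    (hj : 0 ≤ rad j) :
    (interGraph ctr rad).Adj i j ↔ i ≠ j ∧ dist (ctr i) (ctr j) ≤ rad i + rad j := by
  unfold interGraph
  simp only
  rw [← Set.not_disjoint_iff_nonempty_inter, disjoint_closedBall_closedBall_iff hi hj, not_lt]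

/-- a point of 3-space -/
noncomputable def pt (x y z : ℝ) : E3 := !₂[x, y, z]

lemma dist_pt_sq (x y z x' y' z' : ℝ) :
    dist (pt x y z) (pt x' y' z') ^ 2 = (x - x') ^ 2 + (y - y') ^ 2 + (z - z') ^ 2 := by
  rw [EuclideanSpace.dist_sq_eq, Fin.sum_univ_three]
  simp [pt, Real.dist_eq, sq_abs]

lemma pt_injective {x y z x' y' z' : ℝ} (h : pt x y z = pt x' y' z') :
    x = x' ∧ y = y' ∧ z = z' := by
  have h0 := dist_pt_sq x y z x' y' z'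
  rw [h, dist_self] at h0
  have h1 : (x - x') ^ 2 = 0 := by nlinarith [sq_nonneg (x - x'), sq_nonneg (y - y'), sq_nonneg (z - z')]
  have h2 : (y - y') ^ 2 = 0 := by nlinarith [sq_nonneg (x - x'), sq_nonneg (y - y'), sq_nonneg (z - z')]
  have h3 : (z - z') ^ 2 = 0 := by nlinarith [sq_nonneg (x - x'), sq_nonneg (y - y'), sq_nonneg (z - z')]
  refine ⟨?_, ?_, ?_⟩
  · have := pow_eq_zero_iff (two_ne_zero) |>.mp h1; linarith
  · have := pow_eq_zero_iff (two_ne_zero) |>.mp h2; linarith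
  · have := pow_eq_zero_iff (two_ne_zero) |>.mp h3; linarith

/-- rational parametrization of the unit circle -/
noncomputable def cP (t : ℝ) : ℝ := (1 - t ^ 2) / (1 + t ^ 2)
noncomputable def cQ (t : ℝ) : ℝ := 2 * t / (1 + t ^ 2)

lemma cPQ (t : ℝ) : cP t ^ 2 + cQ t ^ 2 = 1 := by
  unfold cP cQ
  have h : (1 + t ^ 2) ≠ 0 := by positivity
  field_simp
  ring

/-- square of the chord -/
noncomputable def chord (t t' : ℝ) : ℝ := (cP t - cP t') ^ 2 + (cQ t - cQ t') ^ 2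

lemma chord_eq (t t' : ℝ) : chord t t' = 4 * (t - t') ^ 2 / ((1 + t ^ 2) * (1 + t' ^ 2)) := by
  unfold chord cP cQ
  have h : (1 + t ^ 2) ≠ 0 := by positivity
  have h' : (1 + t' ^ 2) ≠ 0 := by positivity
  field_simp
  ring

lemma chord_bounds (t t' : ℝ) (h0 : 0 ≤ t) (h1 : t ≤ 1) (h0' : 0 ≤ t') (h1' : t' ≤ 1) :
    (t - t') ^ 2 ≤ chord t t' ∧ chord t t' ≤ 4 * (t - t') ^ 2 := by
  rw [chord_eq]
  have h : 0 < (1 + t ^ 2) * (1 + t' ^ 2) := by positivity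
  have a1 : t ^ 2 ≤ 1 := by nlinarith
  have a2 : t' ^ 2 ≤ 1 := by nlinarith
  have a3 : (1 + t ^ 2) * (1 + t' ^ 2) ≤ 4 := by nlinarith [sq_nonneg t, sq_nonneg t']
  have a4 : 1 ≤ (1 + t ^ 2) * (1 + t' ^ 2) := by nlinarith [sq_nonneg t, sq_nonneg t', mul_nonneg (sq_nonneg t) (sq_nonneg t')]
  constructor
  · rw [le_div_iff₀ h]
    nlinarith [sq_nonneg (t - t')]
  · rw [div_le_iff₀ h]
    nlinarith [sq_nonneg (t - t')]

/-- distance between a small ball centre and a big ball centre -/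
lemma dist_tube (X x c D t t' : ℝ) :
    dist (pt X (c * cP t') (c * cQ t')) (pt x (D * cP t) (D * cQ t)) ^ 2 =
      (x - X) ^ 2 + c * D * chord t t' + (D - c) ^ 2 := by
  rw [dist_pt_sq]
  unfold chord
  have h1 := cPQ t
  have h2 := cPQ t'
  have e : (X - x) ^ 2 + (c * cP t' - D * cP t) ^ 2 + (c * cQ t' - D * cQ t) ^ 2 =
      (x - X) ^ 2 + c ^ 2 * (cP t' ^ 2 + cQ t' ^ 2) + D ^ 2 * (cP t ^ 2 + cQ t ^ 2)
        - 2 * c * D * (cP t * cP t' + cQ t * cQ t') := by ring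
  have e2 : (x - X) ^ 2 + c * D * ((cP t - cP t') ^ 2 + (cQ t - cQ t') ^ 2) + (D - c) ^ 2 =
      (x - X) ^ 2 + c * D * ((cP t ^ 2 + cQ t ^ 2) + (cP t' ^ 2 + cQ t' ^ 2)) + (D - c) ^ 2
        - 2 * c * D * (cP t * cP t' + cQ t * cQ t') := by ring
  rw [e, e2, h1, h2]
  ring

lemma tube_adj (X x c D t t' R : ℝ) (hR : 0 ≤ R) :
    dist (pt X (c * cP t') (c * cQ t')) (pt x (D * cP t) (D * cQ t)) ≤
      (Real.sqrt ((D - c) ^ 2 + R) - (D - 1)) + (D - 1) ↔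
      (x - X) ^ 2 + c * D * chord t t' ≤ R := by
  have e : (Real.sqrt ((D - c) ^ 2 + R) - (D - 1)) + (D - 1) = Real.sqrt ((D - c) ^ 2 + R) := by ring
  rw [e, Real.le_sqrt dist_nonneg (by positivity), dist_tube]
  constructor <;> intro h <;> linarith

/-- the sandwich: inner box -/
lemma sand_in (S T I I' δ σ m tt tt' : ℝ) (hδ0 : 0 ≤ δ) (hδ : δ ≤ 1 / 2) (hI : 2 ≤ I)
    (hI' : 0 < I') (hm : 0 < m) (hS : |S| ≤ I) (hT : |T| ≤ I')
    (h0 : 0 ≤ tt) (h1 : tt ≤ 1) (h0' : 0 ≤ tt') (h1' : tt' ≤ 1)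
    (htt : tt - tt' = T / (2 * m)) :
    (σ * (S - δ)) ^ 2 + (2 * σ ^ 2 * I ^ 2 * m ^ 2 / I' ^ 2) * chord tt tt' ≤
      4 * I ^ 2 * σ ^ 2 := by
  have hc := (chord_bounds tt tt' h0 h1 h0' h1').2
  rw [htt] at hc
  have hc2 : chord tt tt' ≤ T ^ 2 / m ^ 2 := by
    refine hc.trans (le_of_eq ?_)
    field_simp
    ring
  have hT2 : T ^ 2 ≤ I' ^ 2 := by
    rw [← sq_abs T]
    exact pow_le_pow_left₀ (abs_nonneg T) hT 2
  have hS2 : (S - δ) ^ 2 ≤ 2 * I ^ 2 := by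
    rw [abs_le] at hS
    have h3 : (S - δ) ^ 2 ≤ (I + 1 / 2) ^ 2 := by
      apply sq_le_sq'
      · linarith [hS.1]
      · linarith [hS.2]
    nlinarith
  have h4 : (2 * σ ^ 2 * I ^ 2 * m ^ 2 / I' ^ 2) * chord tt tt' ≤ 2 * σ ^ 2 * I ^ 2 := by
    calc (2 * σ ^ 2 * I ^ 2 * m ^ 2 / I' ^ 2) * chord tt tt'
        ≤ (2 * σ ^ 2 * I ^ 2 * m ^ 2 / I' ^ 2) * (T ^ 2 / m ^ 2) := by
          apply mul_le_mul_of_nonneg_left hc2; positivity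
      _ = 2 * σ ^ 2 * I ^ 2 * (T ^ 2 / I' ^ 2) := by field_simp
      _ ≤ 2 * σ ^ 2 * I ^ 2 * 1 := by
          apply mul_le_mul_of_nonneg_left _ (by positivity)
          rw [div_le_one (by positivity)]; exact hT2
      _ = 2 * σ ^ 2 * I ^ 2 := by ring
  have h5 : (σ * (S - δ)) ^ 2 ≤ σ ^ 2 * (2 * I ^ 2) := by
    rw [mul_pow]
    exact mul_le_mul_of_nonneg_left hS2 (sq_nonneg σ)
  nlinarith

/-- the sandwich: outer box -/
lemma sand_out (S T I I' δ σ m tt tt' : ℝ) (hδ0 : 0 ≤ δ) (hδ : δ ≤ 1 / 2) (hI : 2 ≤ I)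
    (hI' : 0 < I') (hm : 0 < m) (hσ : 0 < σ)
    (h0 : 0 ≤ tt) (h1 : tt ≤ 1) (h0' : 0 ≤ tt') (h1' : tt' ≤ 1)
    (htt : tt - tt' = T / (2 * m))
    (h : (σ * (S - δ)) ^ 2 + (2 * σ ^ 2 * I ^ 2 * m ^ 2 / I' ^ 2) * chord tt tt' ≤
      4 * I ^ 2 * σ ^ 2) : |S| < 4 * I ∧ |T| < 4 * I' := by
  have hc := (chord_bounds tt tt' h0 h1 h0' h1').1
  have hcn : 0 ≤ chord tt tt' := (sq_nonneg _).trans hc
  rw [htt] at hc
  constructor
  · have h2 : 0 ≤ (2 * σ ^ 2 * I ^ 2 * m ^ 2 / I' ^ 2) * chord tt tt' := by positivity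
    have h3 : σ ^ 2 * (S - δ) ^ 2 ≤ σ ^ 2 * (2 * I) ^ 2 := by nlinarith
    have h4 : (S - δ) ^ 2 ≤ (2 * I) ^ 2 := le_of_mul_le_mul_left h3 (by positivity)
    have h5 := abs_le_of_sq_le_sq h4 (by linarith)
    rw [abs_le] at h5
    rw [abs_lt]
    constructor <;> linarith [h5.1, h5.2]
  · have h2 : 0 ≤ (σ * (S - δ)) ^ 2 := sq_nonneg _
    have h3 : (2 * σ ^ 2 * I ^ 2 * m ^ 2 / I' ^ 2) * ((T / (2 * m)) ^ 2) ≤ 4 * I ^ 2 * σ ^ 2 := by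
      calc _ ≤ (2 * σ ^ 2 * I ^ 2 * m ^ 2 / I' ^ 2) * chord tt tt' := by
            apply mul_le_mul_of_nonneg_left hc; positivity
        _ ≤ _ := by linarith
    have h4 : (2 * σ ^ 2 * I ^ 2 * m ^ 2 / I' ^ 2) * ((T / (2 * m)) ^ 2) =
        (σ ^ 2 * I ^ 2) * (T ^ 2 / (2 * I' ^ 2)) := by field_simp
    rw [h4] at h3
    have h5 : (σ ^ 2 * I ^ 2) * (T ^ 2 / (2 * I' ^ 2)) ≤ (σ ^ 2 * I ^ 2) * 4 := by linarith
    have h6 : T ^ 2 / (2 * I' ^ 2) ≤ 4 := le_of_mul_le_mul_left h5 (by positivity)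
    rw [div_le_iff₀ (by positivity)] at h6
    have h7 : T ^ 2 < (4 * I') ^ 2 := by nlinarith [sq_pos_of_pos hI']
    exact abs_lt_of_sq_lt_sq h7 (by linarith)

end Pool.Agent.Helper40.BS
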